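import Pool.Agent.H2.Crit4

open Pool.Agent.H2.Crit

namespace Pool.Agent.Results.MP_c0911c_al.Classification

universe u

theorem result (R : Type u) [NonUnitalCommRing R] [Finite R] :
    (Critical R ↔ SubdirectlyIrreducible R) ∧
    (Critical R ↔ (IsLocalWithSimpleSocle R ∨ IsNilpotentWithCyclicAnnihilator R)) :=
  main R

end Pool.Agent.Results.MP_c0911c_al.Classification
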